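import Pool.Agent.Lib.MP_95ac01_nt.Iface

/-!
# Module FIBRE (helper81)
-/

set_option autoImplicit false

namespace Cub.H81

open Finset

theorem pd_single {R : Type*} [CommRing R] (m : Mon) (t : R) (j : Fin 4) (x : Fin 4 → R) :
    pd (Pi.single m t) j x = t * dmv m j x := by
  unfold pd
  rw [Finset.sum_eq_single m]
  · simp
  · intro b _ hb; simp [Pi.single_eq_of_ne hb]
  · simp

theorem cc_update {R : Type*} [CommRing R] (c : Mon → ℤ) (m : Mon) :
    cc R c = cc R (Function.update c m 0) + Pi.single m ((c m : ℤ) : R) := by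
  classical
  funext k
  simp only [cc, Pi.add_apply]
  by_cases h : k = m
  · subst h; simp
  · rw [Function.update_of_ne h, Pi.single_eq_of_ne h, add_zero]

theorem ev_update {R : Type*} [CommRing R] (c : Mon → ℤ) (m : Mon) (a : Fin 4 → R) :
    ev (cc R c) a = (c m : R) * mv m a + ev (cc R (Function.update c m 0)) a := by
  rw [cc_update c m, ev_add, ev_single, add_comm]

theorem pd_update {R : Type*} [CommRing R] (c : Mon → ℤ) (m : Mon) (j : Fin 4) (a : Fin 4 → R) :
    pd (cc R c) j a = (c m : R) * dmv m j a + pd (cc R (Function.update c m 0)) j a := by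
  rw [cc_update c m, pd_add, pd_single, add_comm]

theorem dmv_zero {R : Type*} [CommRing R] (i j k : Fin 4) (hki : k ≠ i) (hkj : k ≠ j)
    (a : Fin 4 → R) : dmv (mon3 i i j) k a = 0 := by
  unfold dmv
  rw [mon3_val, if_neg hki, if_neg hkj]
  simp

theorem dmv_one {R : Type*} [CommRing R] (i j : Fin 4) (hji : j ≠ i) (a : Fin 4 → R)
    (ha : a i = 1) : dmv (mon3 i i j) j a = 1 := by
  unfold dmv
  rw [mon3_val, if_neg hji, if_pos rfl]
  have h1 : ∏ l ∈ univ.erase j, a l ^ (((mon3 i i j).1 l : Fin 4) : ℕ) = 1 := by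
    refine Finset.prod_eq_one fun l hl => ?_
    have hlj : l ≠ j := Finset.ne_of_mem_erase hl
    rw [mon3_val]
    by_cases h : l = i
    · rw [h, ha, one_pow]
    · rw [if_neg h, if_neg hlj]
      simp
  rw [h1]
  simp

theorem mon3_inj (i j k : Fin 4) (h : mon3 i i j = mon3 i i k) : j = k := by
  revert i j k; decide

open Classical in
/-- one step -/
theorem step (H : ℕ) (S S' : Finset (Mon → ℤ)) (m : Mon) (N : ℕ) {R : Type*} [CommRing R]
    (D : Set R) (hN : ∀ t : R, ((Icc (-(H : ℤ)) (H : ℤ)).filter fun n : ℤ => (n : R) + t ∈ D).card ≤ N)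
    (φ : (Mon → ℤ) → R) (hS : ∀ c ∈ S, |c m| ≤ (H : ℤ)) (hmap : ∀ c ∈ S, Function.update c m 0 ∈ S')
    (hφ : ∀ c ∈ S, (c m : R) + φ (Function.update c m 0) ∈ D) : S.card ≤ N * S'.card := by
  have h1 : S.card ≤ N * (S.image fun c => Function.update c m 0).card := by
    refine Finset.card_le_mul_card_image S N fun c' _ => ?_
    refine le_trans ?_ (hN (φ c'))
    refine Finset.card_le_card_of_injOn (fun c => c m) ?_ ?_
    · intro c hc
      have hc' := Finset.mem_filter.1 (Finset.mem_coe.1 hc)
      refine Finset.mem_coe.2 (Finset.mem_filter.2 ⟨Finset.mem_Icc.2 (abs_le.1 (hS c hc'.1)), ?_⟩)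
      have := hφ c hc'.1
      rwa [hc'.2] at this
    · intro c hc d hd h
      have hc' := (Finset.mem_filter.1 (Finset.mem_coe.1 hc)).2
      have hd' := (Finset.mem_filter.1 (Finset.mem_coe.1 hd)).2
      funext k
      by_cases hk : k = m
      · subst hk; exact h
      · have h2 := congrFun (hc'.trans hd'.symm) k
        rwa [Function.update_of_ne hk, Function.update_of_ne hk] at h2
  refine h1.trans (Nat.mul_le_mul_left _ (Finset.card_le_card ?_))
  intro c' hc'
  obtain ⟨c, hc, rfl⟩ := Finset.mem_image.1 hc'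
  exact hmap c hc

open Classical in
/-- the intermediate sets -/
noncomputable def SF {R : Type*} [CommRing R] (a : Fin 4 → R) (i : Fin 4) (D : Set R) (H : ℕ)
    (F : Finset (Fin 4)) : Finset (Mon → ℤ) :=
  (box H).filter fun c => (∀ j, j ∉ F → c (mon3 i i j) = 0) ∧ ∀ j ∈ F, pd (cc R c) j a ∈ D

theorem update_box {H : ℕ} {c : Mon → ℤ} (hc : c ∈ box H) (m : Mon) :
    Function.update c m 0 ∈ box H := by
  rw [mem_box] at *
  intro k
  by_cases h : k = m
  · subst h; simp
  · rw [Function.update_of_ne h]; exact hc k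

theorem card_SF_empty {R : Type*} [CommRing R] (a : Fin 4 → R) (i : Fin 4) (D : Set R) (H : ℕ) :
    (SF a i D H ∅).card = (2 * H + 1) ^ 16 := by
  classical
  have h1 : SF a i D H ∅ = Fintype.piFinset fun m : Mon =>
      if (∃ j, m = mon3 i i j) then ({0} : Finset ℤ) else Icc (-(H : ℤ)) H := by
    ext c
    unfold SF
    simp only [Finset.mem_filter, mem_box, Fintype.mem_piFinset, Finset.notMem_empty,
      not_false_eq_true, true_implies, IsEmpty.forall_iff, implies_true, and_true]
    constructor
    · rintro ⟨h2, h3⟩ m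
      by_cases h : ∃ j, m = mon3 i i j
      · rw [if_pos h]
        obtain ⟨j, rfl⟩ := h
        rw [Finset.mem_singleton]
        exact h3 j
      · rw [if_neg h, Finset.mem_Icc]
        exact abs_le.1 (h2 m)
    · intro h2
      have h3 : ∀ j, c (mon3 i i j) = 0 := by
        intro j
        have := h2 (mon3 i i j)
        rw [if_pos ⟨j, rfl⟩, Finset.mem_singleton] at this
        exact this
      refine ⟨fun m => ?_, h3⟩
      by_cases h : ∃ j, m = mon3 i i j
      · obtain ⟨j, rfl⟩ := h
        rw [h3 j]; simp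
      · have := h2 m
        rw [if_neg h, Finset.mem_Icc] at this
        exact abs_le.2 this
  rw [h1, Fintype.card_piFinset]
  have h2 : ∀ m : Mon, (if (∃ j, m = mon3 i i j) then ({0} : Finset ℤ) else Icc (-(H : ℤ)) H).card =
      if (∃ j, m = mon3 i i j) then 1 else 2 * H + 1 := by
    intro m
    split_ifs
    · rfl
    · rw [Int.card_Icc]; omega
  rw [Finset.prod_congr rfl fun m _ => h2 m, Finset.prod_ite, Finset.prod_const_one, one_mul,
    Finset.prod_const]
  congr 1
  have h3 : (univ.filter fun m : Mon => ¬ ∃ j, m = mon3 i i j).card = 16 := by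
    have : ∀ i : Fin 4, (univ.filter fun m : Mon => ¬ ∃ j, m = mon3 i i j).card = 16 := by
      intro i
      have e : (univ.filter fun m : Mon => ¬ ∃ j, m = mon3 i i j).card +
          (univ.filter fun m : Mon => ∃ j, m = mon3 i i j).card = 20 := by
        rw [add_comm, Finset.card_filter_add_card_filter_not, Finset.card_univ, card_mon]
      have e2 : (univ.filter fun m : Mon => ∃ j, m = mon3 i i j) =
          univ.image fun j => mon3 i i j := by
        ext m
        simp [eq_comm]
      rw [e2, Finset.card_image_of_injective _ fun j k h => mon3_inj i j k h, Finset.card_univ,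
        Fintype.card_fin] at e
      omega
    exact this i
  exact h3

theorem card_SF {R : Type*} [CommRing R] (a : Fin 4 → R) (i : Fin 4) (D : Set R) (N H : ℕ)
    (ha : a i = 1)
    (hN : ∀ t : R,
      (by classical exact ((Icc (-(H : ℤ)) (H : ℤ)).filter fun n : ℤ => (n : R) + t ∈ D).card) ≤ N)
    (F : Finset (Fin 4)) (hF : i ∉ F) : (SF a i D H F).card ≤ N ^ F.card * (2 * H + 1) ^ 16 := by
  classical
  induction F using Finset.induction_on with
  | empty => rw [card_SF_empty, Finset.card_empty, pow_zero, one_mul]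
  | insert j F hj ih =>
    have hji : j ≠ i := fun h => hF (by rw [h]; exact Finset.mem_insert_self _ _)
    have hF' : i ∉ F := fun h => hF (Finset.mem_insert_of_mem h)
    have h1 := step H (SF a i D H (insert j F)) (SF a i D H F) (mon3 i i j) N D
      (fun t => by convert hN t) (fun c => pd (cc R c) j a) ?_ ?_ ?_
    · rw [Finset.card_insert_of_notMem hj, pow_succ', mul_assoc]
      exact h1.trans (Nat.mul_le_mul_left _ (ih hF'))
    · intro c hc
      exact mem_box.1 (Finset.mem_filter.1 hc).1 _
    · intro c hc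
      have hc' := Finset.mem_filter.1 hc
      refine Finset.mem_filter.2 ⟨update_box hc'.1 _, ?_, ?_⟩
      · intro k hk
        by_cases hkj : k = j
        · subst hkj; simp
        · rw [Function.update_of_ne fun h => hkj (mon3_inj i k j h)]
          exact hc'.2.1 k fun h => (Finset.mem_insert.1 h).elim hkj hk
      · intro k hk
        have hkj : k ≠ j := fun h => hj (h ▸ hk)
        have hki : k ≠ i := fun h => hF' (h ▸ hk)
        have h2 := pd_update (R := R) c (mon3 i i j) k a
        rw [dmv_zero i j k hki hkj, mul_zero, zero_add] at h2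
        rw [← h2]
        exact hc'.2.2 k (Finset.mem_insert_of_mem hk)
    · intro c hc
      have hc' := Finset.mem_filter.1 hc
      have h2 := pd_update (R := R) c (mon3 i i j) j a
      rw [dmv_one i j hji a ha, mul_one] at h2
      rw [← h2]
      exact hc'.2.2 j (Finset.mem_insert_self _ _)

open Classical in
/-- corrected statement -/
def FibreStatement' : Prop :=
  ∀ (R : Type) [CommRing R] (a : Fin 4 → R) (i : Fin 4) (D : Set R) (N H : ℕ), a i = 1 →
    (∀ t : R, ((Icc (-(H : ℤ)) (H : ℤ)).filter fun n : ℤ => (n : R) + t ∈ D).card ≤ N) →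
    ((box H).filter fun c => ev (cc R c) a ∈ D ∧ ∀ j, j ≠ i → pd (cc R c) j a ∈ D).card ≤
      (2 * H + 1) ^ 16 * N ^ 4

/-- Module FIBRE. -/
theorem fibre : FibreStatement' := by
  classical
  intro R _ a i D N H ha hN
  have h1 := step H ((box H).filter fun c => ev (cc R c) a ∈ D ∧ ∀ j, j ≠ i → pd (cc R c) j a ∈ D)
    (SF a i D H (univ.erase i)) (mon3 i i i) N D (fun t => by convert hN t)
    (fun c => ev (cc R c) a) ?_ ?_ ?_
  · have h2 := card_SF a i D N H ha (fun t => by convert hN t) (univ.erase i)
      (Finset.notMem_erase _ _)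
    have h3 : (univ.erase i : Finset (Fin 4)).card = 3 := by
      rw [Finset.card_erase_of_mem (Finset.mem_univ i)]; rfl
    rw [h3] at h2
    calc _ ≤ N * (SF a i D H (univ.erase i)).card := by convert h1
      _ ≤ N * (N ^ 3 * (2 * H + 1) ^ 16) := Nat.mul_le_mul_left _ h2
      _ = (2 * H + 1) ^ 16 * N ^ 4 := by ring
  · intro c hc
    exact mem_box.1 (Finset.mem_filter.1 hc).1 _
  · intro c hc
    have hc' := Finset.mem_filter.1 hc
    refine Finset.mem_filter.2 ⟨update_box hc'.1 _, ?_, ?_⟩
    · intro k hk
      have hki : k = i := by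
        by_contra h
        exact hk (Finset.mem_erase.2 ⟨h, Finset.mem_univ _⟩)
      subst hki; simp
    · intro k hk
      have hki : k ≠ i := Finset.ne_of_mem_erase hk
      have h2 := pd_update (R := R) c (mon3 i i i) k a
      rw [dmv_zero i i k hki hki, mul_zero, zero_add] at h2
      rw [← h2]
      exact hc'.2.2 k hki
  · intro c hc
    have hc' := Finset.mem_filter.1 hc
    have h2 := ev_update (R := R) c (mon3 i i i) a
    rw [mv_mon3, ha, mul_one, mul_one, mul_one] at h2
    rw [← h2]
    exact hc'.2.1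

end Cub.H81
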